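import Mathlib
import Pool.Agent.H425R3.AG2

set_option autoImplicit false

open Filter Topology
open Pool.Agent.Results.MP_e563b5_al.IntermediateRatio
open Pool.Agent.H425R3.AG

namespace Pool.Agent.Results.MP_b4aa87_al.IntermediateAutGrowth

/-- The ball of radius `n`: the elements of `G` that are products of at most `n` factors, each of which
is an element of `S` or the inverse of an element of `S`. -/
def wordBall (G : Type) [Group G] (S : Finset G) (n : ℕ) : Set G :=
  {g : G | ∃ l : List G, l.length ≤ n ∧ (∀ x ∈ l, x ∈ S ∨ x⁻¹ ∈ S) ∧ l.prod = g}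

/-- The orbit of `g` under the automorphism group of `G`. -/
def autOrbit (G : Type) [Group G] (g : G) : Set G := {h : G | ∃ φ : G ≃* G, φ g = h}

/-- The automorphic growth function: the number of orbits of the automorphism group that meet the
ball of radius `n`. -/
noncomputable def autGrowth (G : Type) [Group G] (S : Finset G) (n : ℕ) : ℕ :=
  {O : Set G | ∃ g ∈ wordBall G S n, O = autOrbit G g}.ncard

/-- `f ≼ g`: there is an integer `c ≥ 1` with `f n ≤ c g (c n + c) + c` for all `n`. -/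
def Dom (f g : ℕ → ℕ) : Prop := ∃ c : ℕ, 1 ≤ c ∧ ∀ n : ℕ, f n ≤ c * g (c * n + c) + c

theorem ball_finite {G : Type} [Group G] (S : Finset G) (n : ℕ) : (wordBall G S n).Finite := by
  have hfin : Finite {x : G // x ∈ S ∨ x⁻¹ ∈ S} := by
    have h1 : {x : G | x ∈ S}.Finite := S.finite_toSet
    have h2 : {x : G | x⁻¹ ∈ S}.Finite := h1.preimage inv_injective.injOn
    exact (h1.union h2).to_subtype
  have h : (wordBall G S n) ⊆ (fun l : List {x : G // x ∈ S ∨ x⁻¹ ∈ S} =>
      (l.map Subtype.val).prod) '' {l | l.length ≤ n} := by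
    rintro g ⟨l, hl, hx, rfl⟩
    refine ⟨l.attach.map (fun a => ⟨a.1, hx a.1 a.2⟩), ?_, ?_⟩
    · simpa using hl
    · simp only [List.map_map]
      congr 1
      exact List.attach_map_subtype_val l
  exact (Set.Finite.image _ (List.finite_length_le _ n)).subset h

theorem growth_eq {G : Type} [Group G] (S : Finset G) (n : ℕ) :
    autGrowth G S n = (autOrbit G '' wordBall G S n).ncard := by
  unfold autGrowth
  congr 1
  ext O
  constructor
  · rintro ⟨g, hg, rfl⟩; exact ⟨g, hg, rfl⟩
  · rintro ⟨g, hg, rfl⟩; exact ⟨g, hg, rfl⟩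

theorem growth_le_ball {G : Type} [Group G] (S : Finset G) (n : ℕ) :
    autGrowth G S n ≤ (wordBall G S n).ncard := by
  rw [growth_eq]
  exact Set.ncard_image_le (ball_finite S n)

theorem orders_le_growth {G : Type} [Group G] (S : Finset G) (n : ℕ) :
    (orderOf '' wordBall G S n).ncard ≤ autGrowth G S n := by
  classical
  rw [growth_eq]
  have h : orderOf '' wordBall G S n = (fun O : Set G =>
      if h : ∃ g, g ∈ O then orderOf h.choose else 0) '' (autOrbit G '' wordBall G S n) := by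
    rw [Set.image_image]
    apply Set.image_congr
    intro g _
    have hne : ∃ h, h ∈ autOrbit G g := ⟨g, MulEquiv.refl G, rfl⟩
    rw [dif_pos hne]
    obtain ⟨φ, hφ⟩ := hne.choose_spec
    rw [← hφ]
    exact (MulEquiv.orderOf_eq φ g).symm
  rw [h]
  exact Set.ncard_image_le ((ball_finite S n).image _)

theorem ball_mul {G : Type} [Group G] {S : Finset G} {m n : ℕ} {g h : G} (hg : g ∈ wordBall G S m)
    (hh : h ∈ wordBall G S n) : g * h ∈ wordBall G S (m + n) := by
  obtain ⟨l, hl, hx, rfl⟩ := hg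
  obtain ⟨l', hl', hx', rfl⟩ := hh
  refine ⟨l ++ l', by simp; omega, ?_, by simp⟩
  intro x hxm
  rcases List.mem_append.mp hxm with h | h
  · exact hx x h
  · exact hx' x h

theorem ball_mono {G : Type} [Group G] {S : Finset G} {m n : ℕ} (h : m ≤ n) :
    wordBall G S m ⊆ wordBall G S n := by
  rintro g ⟨l, hl, hx, rfl⟩
  exact ⟨l, hl.trans h, hx, rfl⟩

theorem ball_exhaust {G : Type} [Group G] (S : Finset G)
    (hS : Subgroup.closure (S : Set G) = ⊤) (g : G) : ∃ n, g ∈ wordBall G S n := by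
  have hg' : g ∈ Subgroup.closure (S : Set G) := by rw [hS]; trivial
  rw [← Subgroup.mem_toSubmonoid, Subgroup.closure_toSubmonoid] at hg'
  obtain ⟨l, hl, hp⟩ := Submonoid.exists_list_of_mem_closure hg'
  refine ⟨l.length, l, le_rfl, ?_, hp⟩
  intro x h
  rcases hl x h with h | h
  · left; exact h
  · right; exact h

theorem ball_compare {G : Type} [Group G] (S S' : Finset G)
    (hS' : Subgroup.closure (S' : Set G) = ⊤) :
    ∃ C : ℕ, 1 ≤ C ∧ ∀ n, wordBall G S n ⊆ wordBall G S' (C * n) := by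
  choose f hf using ball_exhaust S' hS'
  refine ⟨S.sup f + S.sup (fun x => f x⁻¹) + 1, by omega, ?_⟩
  set C := S.sup f + S.sup (fun x => f x⁻¹) + 1 with hC
  have hgen : ∀ x : G, (x ∈ S ∨ x⁻¹ ∈ S) → x ∈ wordBall G S' C := by
    rintro x (h | h)
    · refine ball_mono ?_ (hf x)
      have : f x ≤ S.sup f := Finset.le_sup (f := f) h
      omega
    · refine ball_mono ?_ (hf x)
      have : f x⁻¹⁻¹ ≤ S.sup (fun x => f x⁻¹) := Finset.le_sup (f := fun x => f x⁻¹) h
      rw [inv_inv] at this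
      omega
  rintro n g ⟨l, hl, hx, rfl⟩
  refine ball_mono (Nat.mul_le_mul_left C hl) ?_
  clear hl
  induction l with
  | nil => exact ⟨[], by simp, by simp, by simp⟩
  | cons a l ih =>
    rw [List.prod_cons, List.length_cons, mul_add, mul_one, add_comm]
    exact ball_mul (hgen a (hx a (by simp))) (ih (fun x h => hx x (List.mem_cons_of_mem _ h)))

/-- the group: generated by the first Grigorchuk group and a transposition -/
abbrev Gp : Type := Subgroup.closure {s : Equiv.Perm ℕ | IsGen s}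

/-- labels of the generators -/
def genOf : Option (Option K4) → Equiv.Perm ℕ
  | none => aP
  | some none => τ
  | some (some x) => kP x

theorem genOf_isGen (i : Option (Option K4)) : IsGen (genOf i) := by
  rcases i with _ | _ | x
  · exact Or.inl rfl
  · exact Or.inr (Or.inr rfl)
  · exact Or.inr (Or.inl ⟨x, rfl⟩)

theorem isGen_genOf {s : Equiv.Perm ℕ} (h : IsGen s) : ∃ i, genOf i = s := by
  rcases h with rfl | ⟨x, rfl⟩ | rfl
  · exact ⟨none, rfl⟩
  · exact ⟨some (some x), rfl⟩
  · exact ⟨some none, rfl⟩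

open Classical in
/-- its standard generating set -/
noncomputable def S0 : Finset Gp :=
  Finset.univ.image (fun i => (⟨genOf i, Subgroup.subset_closure (genOf_isGen i)⟩ : Gp))

theorem mem_S0 (g : Gp) : g ∈ S0 ↔ IsGen (g : Equiv.Perm ℕ) := by
  classical
  unfold S0
  rw [Finset.mem_image]
  constructor
  · rintro ⟨i, _, rfl⟩; exact genOf_isGen i
  · intro h
    obtain ⟨i, hi⟩ := isGen_genOf h
    exact ⟨i, Finset.mem_univ _, Subtype.ext hi⟩

theorem S0_closure : Subgroup.closure (S0 : Set Gp) = ⊤ := by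
  have : (S0 : Set Gp) = ((↑) : Gp → Equiv.Perm ℕ) ⁻¹' {s : Equiv.Perm ℕ | IsGen s} := by
    ext g
    rw [Finset.mem_coe, mem_S0]
    rfl
  rw [this]
  exact Subgroup.closure_closure_coe_preimage

theorem V_of_ball {n : ℕ} {g : Gp} (h : g ∈ wordBall Gp S0 n) : V n (g : Equiv.Perm ℕ) := by
  obtain ⟨l, hl, hx, rfl⟩ := h
  refine V_mono hl ?_
  clear hl
  induction l with
  | nil => exact V.one
  | cons a l ih =>
    rw [List.prod_cons, List.length_cons, Subgroup.coe_mul, add_comm]
    have ha : IsGen (a : Equiv.Perm ℕ) := by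
      rcases hx a (by simp) with h | h
      · exact (mem_S0 a).mp h
      · have h1 := (mem_S0 _).mp h
        have h2 := isGen_inv h1
        rw [Subgroup.coe_inv, inv_inv] at h2
        rw [h2]
        exact h1
    exact V_mul (V_gen ha) (ih (fun x h => hx x (List.mem_cons_of_mem _ h)))

theorem ball_of_V {n : ℕ} {g : Equiv.Perm ℕ} (h : V n g) :
    ∃ g' : Gp, (g' : Equiv.Perm ℕ) = g ∧ g' ∈ wordBall Gp S0 n := by
  induction h with
  | one => exact ⟨1, rfl, [], by simp, by simp, by simp⟩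
  | mul n g s _ hs ih =>
    obtain ⟨g', hg', hb⟩ := ih
    refine ⟨g' * ⟨s, Subgroup.subset_closure hs⟩, by rw [Subgroup.coe_mul, hg'], ?_⟩
    refine ball_mul hb ⟨[⟨s, Subgroup.subset_closure hs⟩], by simp, ?_, by simp⟩
    intro x hx
    rw [List.mem_singleton] at hx
    left
    rw [hx, mem_S0]
    exact hs

/-- subexponential growth of the balls -/
theorem ball_subexp (ε : ℝ) (hε : 0 < ε) : ∃ A : ℝ, 0 < A ∧ ∀ n : ℕ,
    ((wordBall Gp S0 n).ncard : ℝ) ≤ A * Real.exp (ε * n) := by
  obtain ⟨A, hA0, hA⟩ := VB_subexp ε hε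
  refine ⟨A, hA0, fun n => ?_⟩
  refine le_trans ?_ (hA n)
  obtain ⟨j, hj⟩ : ∃ j, 6 * n ≤ 2 ^ (8 * j) :=
    ⟨6 * n, (Nat.lt_two_pow_self).le.trans (Nat.pow_le_pow_right (by norm_num) (by omega))⟩
  have hfin := (VB_bound n j hj).1
  have h1 : (wordBall Gp S0 n).ncard ≤ (VB n).ncard := by
    rw [← Set.ncard_image_of_injective (wordBall Gp S0 n)
      (f := fun g : Gp => (g : Equiv.Perm ℕ)) Subtype.val_injective]
    apply Set.ncard_le_ncard _ hfin
    rintro _ ⟨g, hg, rfl⟩
    exact V_of_ball hg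
  exact_mod_cast h1

/-- many orders -/
theorem many_orders (M : ℕ) (hM : 1 ≤ M) :
    2 ^ (Nat.primeCounting M) ≤ (orderOf '' wordBall Gp S0 (12288 * M ^ 10)).ncard := by
  classical
  set k := 2 * Nat.log 2 M + 3 with hk
  have hlog : M < 2 ^ (Nat.log 2 M + 1) := Nat.lt_pow_succ_log_self (by norm_num) M
  have hlog' : 2 ^ Nat.log 2 M ≤ M := Nat.pow_log_le_self 2 (by omega)
  have hk1 : M * M + M ≤ 2 ^ k := by
    have h1 : 2 ^ k = 2 * (2 ^ (Nat.log 2 M + 1) * 2 ^ (Nat.log 2 M + 1)) := by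
      rw [hk, ← pow_add, ← pow_succ']
      congr 1
      ring
    rw [h1]
    have h2 : M * M ≤ 2 ^ (Nat.log 2 M + 1) * 2 ^ (Nat.log 2 M + 1) := Nat.mul_le_mul hlog.le hlog.le
    have h3 : M * 1 ≤ M * M := Nat.mul_le_mul_left _ hM
    omega
  have hk2 : M * (M * LL k) ≤ 12288 * M ^ 10 := by
    have h9 : 9 ^ k ≤ 4096 * M ^ 8 := by
      calc 9 ^ k ≤ 16 ^ k := Nat.pow_le_pow_left (by norm_num) k
        _ = 4096 * (2 ^ Nat.log 2 M) ^ 8 := by
          have e1 : (16 : ℕ) ^ (2 * Nat.log 2 M) = 256 ^ Nat.log 2 M := by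
            rw [pow_mul]; norm_num
          have e2 : (2 ^ Nat.log 2 M) ^ 8 = 256 ^ Nat.log 2 M := by
            rw [← pow_mul, mul_comm, pow_mul]; norm_num
          rw [hk, pow_add, e1, e2, mul_comm]
          norm_num
        _ ≤ 4096 * M ^ 8 := Nat.mul_le_mul_left _ (Nat.pow_le_pow_left hlog' 8)
    unfold LL
    calc M * (M * (3 * 9 ^ k)) ≤ M * (M * (3 * (4096 * M ^ 8))) := by gcongr
      _ = 12288 * M ^ 10 := by ring
  have hsub : ((M.primesLE.powerset).image (fun F => ∏ p ∈ F, p) : Finset ℕ) ⊆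
      ((ball_finite S0 (12288 * M ^ 10)).image orderOf).toFinset := by
    intro m hm
    rw [Finset.mem_image] at hm
    obtain ⟨F, hF, rfl⟩ := hm
    rw [Finset.mem_powerset] at hF
    obtain ⟨g, hg, ho⟩ := exists_order M k hk1 F (fun p hp => by
      have := hF hp
      exact ⟨Nat.prime_of_mem_primesLE this, Nat.le_of_mem_primesLE this⟩)
    obtain ⟨g', hg', hb⟩ := ball_of_V (V_mono hk2 hg)
    rw [Set.Finite.mem_toFinset]
    refine ⟨g', hb, ?_⟩
    rw [← ho, ← hg', Subgroup.orderOf_coe]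
  have hcard := Finset.card_le_card hsub
  rw [Finset.card_image_of_injOn] at hcard
  · rw [Finset.card_powerset, Nat.primesLE_card_eq_primeCounting] at hcard
    rw [Set.ncard_eq_toFinset_card _ ((ball_finite S0 (12288 * M ^ 10)).image orderOf)]
    exact hcard
  · intro F hF F' hF' h
    rw [Finset.mem_coe, Finset.mem_powerset] at hF hF'
    have h1 := Nat.primeFactors_prod (s := F) (fun p hp => Nat.prime_of_mem_primesLE (hF hp))
    have h2 := Nat.primeFactors_prod (s := F') (fun p hp => Nat.prime_of_mem_primesLE (hF' hp))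
    simp only at h
    rw [← h1, ← h2, h]

/-- the number of primes beats every power -/
theorem prime_count_large (a b D : ℕ) : ∃ M : ℕ, 1 ≤ M ∧ a * M ^ D + b < 2 ^ Nat.primeCounting M := by
  -- it suffices to have large `π(M) log 2`
  have h1 : Tendsto (fun x : ℝ => Real.log x ^ 2 / x) atTop (𝓝 0) := by
    have := (Real.isLittleO_pow_log_id_atTop (n := 2)).tendsto_div_nhds_zero
    simpa using this
  have h2 : Tendsto (fun M : ℕ => Real.log (M : ℝ) ^ 2 / M) atTop (𝓝 0) :=
    h1.comp tendsto_natCast_atTop_atTop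
  set K : ℝ := D + 1 + Real.log (a + b + 1) with hK
  have hK0 : 0 < K := by
    have : 0 ≤ Real.log (a + b + 1) := Real.log_nonneg (by
      have : (0 : ℝ) ≤ a := Nat.cast_nonneg a
      have : (0 : ℝ) ≤ b := Nat.cast_nonneg b
      linarith)
    positivity
  have h3 := h2.eventually (gt_mem_nhds (show (0 : ℝ) < 1 / (8 * K) by positivity))
  have h4 := h2.eventually (gt_mem_nhds (show (0 : ℝ) < 1 / 16 by norm_num))
  obtain ⟨M, hM1, hM2, hM3⟩ := (h3.and (h4.and (eventually_ge_atTop 8))).exists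
  refine ⟨M, by omega, ?_⟩
  have hM8 : (8 : ℝ) ≤ M := by exact_mod_cast hM3
  have hMpos : (0 : ℝ) < M := by linarith
  have hlog1 : 1 ≤ Real.log M := by
    rw [Real.le_log_iff_exp_le hMpos]
    have := Real.exp_one_lt_d9
    linarith
  have hlogM : 0 < Real.log M := by linarith
  have hb := Chebyshev.pi_ge M
  have hl2 : (0.6931471803 : ℝ) < Real.log 2 := Real.log_two_gt_d9
  have hlM1 : Real.log ((M : ℝ) + 1) ≤ 2 * Real.log M := by
    rw [← Real.log_rpow hMpos]
    apply Real.log_le_log (by positivity)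
    norm_num
    nlinarith
  -- π(M) log M ≥ M/2 - 2 log M ≥ M/4
  have hsq : Real.log M ≤ Real.log M ^ 2 := by nlinarith
  rw [div_lt_iff₀ hMpos] at hM1 hM2
  have h5 : (M : ℝ) / 4 ≤ (Nat.primeCounting M : ℝ) * Real.log M := by
    rw [div_le_iff₀ hlogM] at hb
    nlinarith
  have h6 : K * Real.log M < Real.log 2 * (Nat.primeCounting M : ℝ) := by
    have h7 : K * Real.log M ^ 2 < M / 8 := by
      have : K * Real.log M ^ 2 < K * (1 / (8 * K) * M) := mul_lt_mul_of_pos_left hM1 hK0
      have h8 : K * (1 / (8 * K) * M) = M / 8 := by field_simp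
      linarith
    have h9 : (K * Real.log M) * Real.log M <
        (Real.log 2 * (Nat.primeCounting M : ℝ)) * Real.log M := by
      have : (M : ℝ) / 8 ≤ Real.log 2 * ((Nat.primeCounting M : ℝ) * Real.log M) := by
        have h0 : (0 : ℝ) ≤ (Nat.primeCounting M : ℝ) * Real.log M := by positivity
        nlinarith
      nlinarith
    exact lt_of_mul_lt_mul_right h9 hlogM.le
  have h7 : ((a : ℝ) * M ^ D + b) ≤ Real.exp (K * Real.log M) := by
    have h8 : Real.exp (K * Real.log M) =
        (M : ℝ) ^ D * M * Real.exp (Real.log (a + b + 1) * Real.log M) := by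
      rw [hK, show ((D : ℝ) + 1 + Real.log (a + b + 1)) * Real.log M =
        D * Real.log M + Real.log M + Real.log (a + b + 1) * Real.log M by ring,
        Real.exp_add, Real.exp_add, Real.exp_nat_mul, Real.exp_log hMpos]
    have ha0 : (0 : ℝ) ≤ a := Nat.cast_nonneg a
    have hb0 : (0 : ℝ) ≤ b := Nat.cast_nonneg b
    have hlab : 0 ≤ Real.log (a + b + 1) := Real.log_nonneg (by linarith)
    have h9 : (a : ℝ) + b + 1 ≤ Real.exp (Real.log (a + b + 1) * Real.log M) := by
      calc (a : ℝ) + b + 1 = Real.exp (Real.log (a + b + 1)) := (Real.exp_log (by linarith)).symm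
        _ ≤ _ := Real.exp_le_exp.mpr (by nlinarith)
    have h10 : (1 : ℝ) ≤ (M : ℝ) ^ D := one_le_pow₀ (by linarith)
    rw [h8]
    have h11 : (M : ℝ) ^ D * 1 * ((a : ℝ) + b + 1) ≤
        (M : ℝ) ^ D * M * Real.exp (Real.log (a + b + 1) * Real.log M) := by
      apply mul_le_mul _ h9 (by linarith) (by positivity)
      exact mul_le_mul_of_nonneg_left (by linarith) (by positivity)
    nlinarith
  have h8 : ((a : ℝ) * M ^ D + b) < (2 : ℝ) ^ Nat.primeCounting M := by
    have h9 : (2 : ℝ) ^ Nat.primeCounting M = Real.exp (Real.log 2 * Nat.primeCounting M) := by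
      rw [mul_comm, Real.exp_nat_mul, Real.exp_log (by norm_num)]
    rw [h9]
    exact h7.trans_lt (Real.exp_lt_exp.mpr h6)
  exact_mod_cast h8

theorem not_poly (S : Finset Gp) (hS : Subgroup.closure (S : Set Gp) = ⊤) (d : ℕ) :
    ¬ Dom (autGrowth Gp S) (fun n => n ^ d) := by
  rintro ⟨c, hc, h⟩
  obtain ⟨C, hC, hsub⟩ := ball_compare S0 S hS
  obtain ⟨M, hM, hlarge⟩ := prime_count_large (c * (c * (C * 12288) + c) ^ d) c (10 * d)
  have h1 := h (C * (12288 * M ^ 10))
  have h2 : 2 ^ Nat.primeCounting M ≤ autGrowth Gp S (C * (12288 * M ^ 10)) := by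
    refine (many_orders M hM).trans ?_
    refine le_trans ?_ (orders_le_growth S _)
    apply Set.ncard_le_ncard
    · exact Set.image_mono (hsub _)
    · exact (ball_finite _ _).image _
  have h3 : c * (C * (12288 * M ^ 10)) + c ≤ (c * (C * 12288) + c) * M ^ 10 := by
    have : 1 ≤ M ^ 10 := Nat.one_le_pow _ _ hM
    nlinarith
  have h4 : c * (c * (C * (12288 * M ^ 10)) + c) ^ d + c ≤
      c * (c * (C * 12288) + c) ^ d * M ^ (10 * d) + c := by
    have h5 : (c * (C * (12288 * M ^ 10)) + c) ^ d ≤ ((c * (C * 12288) + c) * M ^ 10) ^ d :=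
      Nat.pow_le_pow_left h3 d
    rw [mul_pow, ← pow_mul] at h5
    calc c * (c * (C * (12288 * M ^ 10)) + c) ^ d + c
        ≤ c * ((c * (C * 12288) + c) ^ d * M ^ (10 * d)) + c :=
          Nat.add_le_add_right (Nat.mul_le_mul_left c h5) c
      _ = _ := by rw [← mul_assoc c ((c * (C * 12288) + c) ^ d)]
  have h7 := (h2.trans h1).trans h4
  omega

theorem not_exp (S : Finset Gp) : ¬ Dom (fun n => 2 ^ n) (autGrowth Gp S) := by
  rintro ⟨c, hc, h⟩
  obtain ⟨C, hC, hsub⟩ := ball_compare S S0 S0_closure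
  have hc0 : (0 : ℝ) < c := by exact_mod_cast hc
  have hC0 : (0 : ℝ) < C := by exact_mod_cast hC
  obtain ⟨A, hA0, hA⟩ := ball_subexp (1 / (2 * C * c)) (by positivity)
  have h1 : ∀ n : ℕ, (2 : ℝ) ^ n ≤ (c * A * Real.exp 1 + c) * Real.exp (n / 2) := by
    intro n
    have h2 : ((2 ^ n : ℕ) : ℝ) ≤ ((c * autGrowth Gp S (c * n + c) + c : ℕ) : ℝ) := by
      exact_mod_cast h n
    push_cast at h2
    have h3 : (autGrowth Gp S (c * n + c) : ℝ) ≤
        ((wordBall Gp S0 (C * (c * n + c))).ncard : ℝ) := by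
      have := (growth_le_ball S (c * n + c)).trans
        (Set.ncard_le_ncard (hsub (c * n + c)) (ball_finite _ _))
      exact_mod_cast this
    have h4 := hA (C * (c * n + c))
    have h5 : Real.exp (1 / (2 * C * c) * ((C * (c * n + c) : ℕ) : ℝ)) ≤
        Real.exp 1 * Real.exp (n / 2) := by
      rw [← Real.exp_add]
      apply Real.exp_le_exp.mpr
      push_cast
      have : 1 / (2 * (C : ℝ) * c) * (C * (c * n + c)) = (n + 1) / 2 := by
        field_simp
      rw [this]
      linarith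
    have h6 : (1 : ℝ) ≤ Real.exp (n / 2) := Real.one_le_exp (by positivity)
    have h7 : (autGrowth Gp S (c * n + c) : ℝ) ≤ A * (Real.exp 1 * Real.exp (n / 2)) :=
      h3.trans (h4.trans (mul_le_mul_of_nonneg_left h5 hA0.le))
    calc (2 : ℝ) ^ n ≤ c * (autGrowth Gp S (c * n + c) : ℝ) + c := h2
      _ ≤ c * (A * (Real.exp 1 * Real.exp (n / 2))) + c * Real.exp (n / 2) := by
        apply add_le_add
        · exact mul_le_mul_of_nonneg_left h7 hc0.le
        · nlinarith
      _ = _ := by ring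
  have hB : 0 < c * A * Real.exp 1 + c := by positivity
  have h2 : ∀ n : ℕ, Real.exp (n * (Real.log 2 - 1 / 2)) ≤ c * A * Real.exp 1 + c := by
    intro n
    have h3 := h1 n
    have h4 : (2 : ℝ) ^ n = Real.exp (n * (Real.log 2 - 1 / 2)) * Real.exp (n / 2) := by
      rw [← Real.exp_add, show (n : ℝ) * (Real.log 2 - 1 / 2) + n / 2 = n * Real.log 2 by ring,
        Real.exp_nat_mul, Real.exp_log (by norm_num)]
    rw [h4] at h3
    exact le_of_mul_le_mul_right h3 (Real.exp_pos _)
  have hl2 : (0.6931471803 : ℝ) < Real.log 2 := Real.log_two_gt_d9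
  obtain ⟨n, hn⟩ := exists_nat_gt ((c * A * Real.exp 1 + c) / 0.19)
  have h3 := h2 n
  have h4 := Real.add_one_le_exp ((n : ℝ) * (Real.log 2 - 1 / 2))
  rw [div_lt_iff₀ (by norm_num)] at hn
  have hn0 : (0 : ℝ) ≤ n := Nat.cast_nonneg n
  nlinarith

/-- There is a finitely generated group whose automorphic growth (with respect to every finite
generating set) is intermediate: not bounded by a polynomial, and not exponential. -/
theorem result : ∃ (G : Type) (_ : Group G),
    (∃ S : Finset G, Subgroup.closure (S : Set G) = ⊤) ∧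
    ∀ S : Finset G, Subgroup.closure (S : Set G) = ⊤ →
      (∀ d : ℕ, ¬ Dom (autGrowth G S) (fun n => n ^ d)) ∧
      ¬ Dom (fun n => 2 ^ n) (autGrowth G S) :=
  ⟨Gp, inferInstance, ⟨S0, S0_closure⟩, fun S hS => ⟨not_poly S hS, not_exp S⟩⟩

end Pool.Agent.Results.MP_b4aa87_al.IntermediateAutGrowth
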